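import Mathlib.Tactic.FunProp
import Mathlib.SetTheory.ZFC.Ordinal
import Pool.Agent.P.MP_af0a18_lc.Main

/-!
A typed layer over a transitive model `N` of ZFC. A type is coded when its elements are given
injective codes that form a set of `N`; a function between coded types is definable (`DefF`)
when its graph is a set of `N`. Definability goals are closed by `fun_prop`, after universal
quantifiers and implications are rewritten with `all_eq`, `imp_eq`.
-/

set_option synthInstance.maxSize 16384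

namespace Pool.Agent.Lib.Typed

open ZFSet Pool.Agent.Lib.Forcing Pool.Agent.P.MP_af0a18_lc

/-- Transitive models of ZFC. -/
class ZFC (N : Set ZFSet.{0}) : Prop extends ZFm N where
  pow : ∀ x ∈ N, ∃ y ∈ N, ∀ z ∈ N, z ⊆ x → z ∈ y
  ac : Choice N

/-- The elements of `X` have codes, and the codes form a set of `N`. -/
class Coded (N : Set ZFSet.{0}) (X : Type) where
  code : X → ZFSet.{0}
  inj : Function.Injective code
  mem : range code ∈ N

variable {N : Set ZFSet.{0}}

/-- The code of an element. -/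
abbrev cd (N : Set ZFSet.{0}) {X : Type} [Coded N X] (x : X) : ZFSet.{0} := Coded.code N x

/-- The set of codes. -/
noncomputable def car (N : Set ZFSet.{0}) (X : Type) [Coded N X] : ZFSet.{0} :=
  range (Coded.code N : X → ZFSet.{0})

section
variable {X Y Z W : Type} [Coded N X] [Coded N Y] [Coded N Z] [Coded N W]

theorem mem_car {z : ZFSet.{0}} : z ∈ car N X ↔ ∃ x : X, cd N x = z := mem_range

theorem cd_mem_car (x : X) : cd N x ∈ car N X := mem_car.2 ⟨x, rfl⟩

theorem car_mem (X : Type) [Coded N X] : car N X ∈ N := Coded.mem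

@[simp] theorem cd_inj {x y : X} : cd N x = cd N y ↔ x = y := Coded.inj.eq_iff

instance : InM N (car N X) := ⟨car_mem X⟩

theorem cd_mem [ZFC N] (x : X) : cd N x ∈ N := mem_of_mem (car_mem X) (cd_mem_car x)

instance [ZFC N] (x : X) : InM N (cd N x) := ⟨cd_mem x⟩

theorem forall_car {p : ZFSet.{0} → Prop} : (∀ z ∈ car N X, p z) ↔ ∀ x : X, p (cd N x) :=
  ⟨fun h x => h _ (cd_mem_car x), fun h _ hz => by obtain ⟨x, rfl⟩ := mem_car.1 hz; exact h x⟩

theorem exists_car {p : ZFSet.{0} → Prop} : (∃ z ∈ car N X, p z) ↔ ∃ x : X, p (cd N x) :=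
  ⟨fun ⟨_, hz, h⟩ => by obtain ⟨x, rfl⟩ := mem_car.1 hz; exact ⟨x, h⟩,
    fun ⟨x, h⟩ => ⟨_, cd_mem_car x, h⟩⟩

/-- The codes of the elements that satisfy `p` are the codes lying in a set of `N`. -/
def DefP (N : Set ZFSet.{0}) {X : Type} [Coded N X] (p : X → Prop) : Prop :=
  ∃ a ∈ N, ∀ x, p x ↔ cd N x ∈ a

/-- The graph of `f` is a set of `N`. -/
@[fun_prop] def DefF (N : Set ZFSet.{0}) {X Y : Type} [Coded N X] [Coded N Y] (f : X → Y) : Prop :=
  ∃ a ∈ N, ∀ x y, f x = y ↔ pair (cd N x) (cd N y) ∈ a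

variable [ZFC N]

theorem DefP.of_df (R : ZFSet.{0} → Prop) [Df N (fun e => R (e 0))] {p : X → Prop}
    (h : ∀ x, p x ↔ R (cd N x)) : DefP N p :=
  ⟨_, sep_mem R (car_mem X), fun x => by rw [mem_sep, h]; simp [cd_mem_car]⟩

theorem exists_rel (R : ZFSet.{0} → ZFSet.{0} → Prop) [Df N (fun e => R (e 1) (e 0))] :
    ∃ a ∈ N, ∀ (x : X) (y : Y), pair (cd N x) (cd N y) ∈ a ↔ R (cd N x) (cd N y) := by
  obtain ⟨S, hS, -, h⟩ := exists_pairSep (M := N) R (car_mem X) (car_mem Y)
  exact ⟨S, hS, fun x y => by rw [h]; simp [cd_mem_car]⟩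

theorem DefF.of_df (R : ZFSet.{0} → ZFSet.{0} → Prop) [Df N (fun e => R (e 1) (e 0))] {f : X → Y}
    (h : ∀ x y, f x = y ↔ R (cd N x) (cd N y)) : DefF N f := by
  obtain ⟨a, ha, H⟩ := exists_rel (N := N) (X := X) (Y := Y) R
  exact ⟨a, ha, fun x y => (h x y).trans (H x y).symm⟩

noncomputable instance : Coded N (X × Y) where
  code z := pair (cd N z.1) (cd N z.2)
  inj := fun z w h => Prod.ext (Coded.inj (pair_inj.1 h).1) (Coded.inj (pair_inj.1 h).2)
  mem := by
    convert prod_mem (car_mem (N := N) X) (car_mem Y) using 1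
    ext z
    rw [mem_range, mem_prod]
    constructor
    · rintro ⟨w, rfl⟩
      exact ⟨_, cd_mem_car _, _, cd_mem_car _, rfl⟩
    · rintro ⟨a, ha, b, hb, rfl⟩
      obtain ⟨x, rfl⟩ := mem_car.1 ha
      obtain ⟨y, rfl⟩ := mem_car.1 hb
      exact ⟨(x, y), rfl⟩

@[simp] theorem cd_prod (x : X) (y : Y) : cd N (x, y) = pair (cd N x) (cd N y) := rfl

theorem cd_prod' (z : X × Y) : cd N z = pair (cd N z.1) (cd N z.2) := rfl

open Classical in
noncomputable instance : Coded N Prop where
  code p := if p then {∅} else ∅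
  inj := by
    have h : ({∅} : ZFSet.{0}) ≠ ∅ := fun h =>
      notMem_empty ∅ ((congrArg (fun s : ZFSet.{0} => ∅ ∈ s) h).mp (mem_singleton.2 rfl))
    intro p q hpq
    by_cases hp : p <;> by_cases hq : q <;> simp_all [h.symm]
  mem := by
    convert upair_mem (M := N) (singleton_mem (Trans.empty)) Trans.empty using 1
    ext z
    rw [mem_range, mem_pair]
    constructor
    · rintro ⟨p, rfl⟩
      split_ifs <;> simp
    · rintro (rfl | rfl)
      exacts [⟨True, by simp⟩, ⟨False, by simp⟩]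

theorem defF_iff_defP {p : X → Prop} : DefF N p ↔ DefP N p := by
  constructor
  · rintro ⟨a, ha, h⟩
    have := InM.mk ha
    exact DefP.of_df (fun z => pair z (cd N True) ∈ a) fun x => by rw [← h]; simp
  · rintro ⟨a, ha, h⟩
    have := InM.mk ha
    refine DefF.of_df (fun z w => (z ∈ a ∧ w = cd N True) ∨ (¬ z ∈ a ∧ w = cd N False))
      fun x q => ?_
    rw [← h, cd_inj, cd_inj]
    by_cases hp : p x <;> by_cases hq : q <;> simp [hp, hq]

theorem DefF.defP {p : X → Prop} (h : DefF N p) : DefP N p := defF_iff_defP.1 h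

theorem DefP.defF {p : X → Prop} (h : DefP N p) : DefF N p := defF_iff_defP.2 h

theorem defF_mem {a : ZFSet.{0}} (ha : a ∈ N) : DefF N (fun x : X => cd N x ∈ a) :=
  DefP.defF ⟨a, ha, fun _ => Iff.rfl⟩

omit [ZFC N] in
theorem DefF.congr {f g : X → Y} (h : DefF N f) (hfg : ∀ x, f x = g x) : DefF N g :=
  funext hfg ▸ h

omit [ZFC N] in
theorem DefF.congr_iff [Coded N Prop] {p q : X → Prop} (h : DefF N p) (hpq : ∀ x, p x ↔ q x) :
    DefF N q :=
  h.congr fun x => propext (hpq x)

@[fun_prop] theorem DefF.id : DefF N (fun x : X => x) :=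
  DefF.of_df (fun z w => z = w) fun _ _ => cd_inj.symm

@[fun_prop] theorem DefF.const (y : Y) : DefF N (fun _ : X => y) :=
  DefF.of_df (fun _ w => cd N y = w) fun _ _ => cd_inj.symm

@[fun_prop] theorem DefF.comp {g : Y → Z} {f : X → Y} (hg : DefF N g) (hf : DefF N f) :
    DefF N (fun x => g (f x)) := by
  obtain ⟨a, ha, h1⟩ := hf
  obtain ⟨b, hb, h2⟩ := hg
  have := InM.mk ha
  have := InM.mk hb
  refine DefF.of_df (fun x z => ∃ y ∈ car N Y, pair x y ∈ a ∧ pair y z ∈ b) fun x z => ?_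
  rw [exists_car]
  simp only [← h1, ← h2]
  simp

@[fun_prop] theorem DefF.fst : DefF N (Prod.fst : X × Y → X) :=
  DefF.of_df (fun z w => ∃ y ∈ car N Y, z = pair w y) fun z x => by
    rw [exists_car, cd_prod']
    simp only [pair_inj, cd_inj]
    simp

@[fun_prop] theorem DefF.snd : DefF N (Prod.snd : X × Y → Y) :=
  DefF.of_df (fun z w => ∃ x ∈ car N X, z = pair x w) fun z x => by
    rw [exists_car, cd_prod']
    simp only [pair_inj, cd_inj]
    simp

@[fun_prop] theorem DefF.prodMk {f : X → Y} {g : X → Z} (hf : DefF N f) (hg : DefF N g) :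
    DefF N (fun x => (f x, g x)) := by
  obtain ⟨a, ha, h1⟩ := hf
  obtain ⟨b, hb, h2⟩ := hg
  have := InM.mk ha
  have := InM.mk hb
  refine DefF.of_df (fun x w => ∃ y ∈ car N Y, ∃ z ∈ car N Z, w = pair y z ∧ pair x y ∈ a ∧
    pair x z ∈ b) fun x w => ?_
  simp only [exists_car, ← h1, ← h2, cd_prod', pair_inj, cd_inj]
  simp [Prod.ext_iff, eq_comm]

@[fun_prop] theorem DefF.eq {f g : X → Y} (hf : DefF N f) (hg : DefF N g) :
    DefF N (fun x => f x = g x) := by
  have h : DefF N (fun z : Y × Y => z.1 = z.2) :=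
    DefP.defF (DefP.of_df (fun z => ∃ y ∈ car N Y, z = pair y y) fun z => by
      rw [exists_car, cd_prod']
      simp only [pair_inj, cd_inj]
      exact ⟨fun h => ⟨z.2, h, rfl⟩, fun ⟨y, h1, h2⟩ => h1.trans h2.symm⟩)
  exact h.comp (hf.prodMk hg)

@[fun_prop] theorem DefF.not {p : X → Prop} (hp : DefF N p) : DefF N (fun x => ¬ p x) := by
  obtain ⟨a, ha, h⟩ := hp.defP
  have := InM.mk ha
  exact (DefP.of_df (fun z => ¬ z ∈ a) fun x => by rw [h]).defF

@[fun_prop] theorem DefF.and {p q : X → Prop} (hp : DefF N p) (hq : DefF N q) :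
    DefF N (fun x => p x ∧ q x) := by
  obtain ⟨a, ha, h⟩ := hp.defP
  obtain ⟨b, hb, k⟩ := hq.defP
  have := InM.mk ha
  have := InM.mk hb
  exact (DefP.of_df (fun z => z ∈ a ∧ z ∈ b) fun x => by rw [h, k]).defF

@[fun_prop] theorem DefF.or {p q : X → Prop} (hp : DefF N p) (hq : DefF N q) :
    DefF N (fun x => p x ∨ q x) :=
  (hp.not.and hq.not).not.congr_iff fun _ => by tauto

@[fun_prop] theorem DefF.iff {p q : X → Prop} (hp : DefF N p) (hq : DefF N q) :
    DefF N (fun x => p x ↔ q x) :=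
  (hp.eq hq).congr_iff fun _ => eq_iff_iff

@[fun_prop] theorem DefF.ne {f g : X → Y} (hf : DefF N f) (hg : DefF N g) :
    DefF N (fun x => f x ≠ g x) := (hf.eq hg).not

@[fun_prop] theorem DefF.exists {p : X → Y → Prop} (hp : DefF N (fun z : X × Y => p z.1 z.2)) :
    DefF N (fun x => ∃ y, p x y) := by
  obtain ⟨a, ha, h⟩ := hp.defP
  have := InM.mk ha
  refine (DefP.of_df (fun z => ∃ y ∈ car N Y, pair z y ∈ a) fun x => ?_).defF
  rw [exists_car]
  exact exists_congr fun y => h (x, y)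

/-- Universal quantification as a constant. -/
def All {Y : Type} (p : Y → Prop) : Prop := ∀ y, p y

/-- Implication as a constant. -/
def Imp (p q : Prop) : Prop := p → q

theorem all_eq {Y : Type} (p : Y → Prop) : (∀ y, p y) = All p := rfl

theorem imp_eq (p q : Prop) : (p → q) = Imp p q := rfl

@[fun_prop] theorem DefF.all {p : X → Y → Prop} (hp : DefF N (fun z : X × Y => p z.1 z.2)) :
    DefF N (fun x => All (p x)) :=
  (DefF.exists (p := fun x y => ¬ p x y) hp.not).not.congr_iff fun _ => by simp [All]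

@[fun_prop] theorem DefF.imp {p q : X → Prop} (hp : DefF N p) (hq : DefF N q) :
    DefF N (fun x => Imp (p x) (q x)) :=
  (hp.not.or hq).congr_iff fun _ => by unfold Imp; tauto

theorem DefF.of_graph {f : X → Y} (h : DefF N (fun z : X × Y => f z.1 = z.2)) : DefF N f := by
  obtain ⟨a, ha, h⟩ := h.defP
  exact ⟨a, ha, fun x y => h (x, y)⟩

/-- A function is definable when its graph is described by a definable relation. -/
theorem DefF.of_rel {f : X → Y} (R : X → Y → Prop) (h : DefF N (fun z : X × Y => R z.1 z.2))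
    (hR : ∀ x y, f x = y ↔ R x y) : DefF N f :=
  DefF.of_graph (h.congr_iff fun z => (hR z.1 z.2).symm)

@[fun_prop] theorem DefF.ite {p : X → Prop} [DecidablePred p] {f g : X → Y} (hp : DefF N p)
    (hf : DefF N f) (hg : DefF N g) : DefF N (fun x => if p x then f x else g x) :=
  DefF.of_rel (fun x y => (p x ∧ f x = y) ∨ (¬ p x ∧ g x = y)) (by fun_prop) fun x y => by
    by_cases h : p x <;> simp [h]

end

end Pool.Agent.Lib.Typed
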