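import Pool.Agent.Lib.Typed.Omega1

/-!
Forcing in the typed layer: typed forcing notions, generic filters, nice names; the universe as
a model; the elements of an ordinal as a linear order.
-/

set_option synthInstance.maxSize 16384
set_option linter.unusedSectionVars false

namespace Pool.Agent.Lib.Typed

open ZFSet Pool.Agent.Lib.Forcing Pool.Agent.P.MP_af0a18_lc

theorem zfc_of {N : Set ZFSet.{0}} (h : IsZFModel N) (hc : Choice N) : ZFC N :=
  { h.zfm with pow := h.powerSet, ac := hc }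

theorem isZFModel_univ : IsZFModel (Set.univ : Set ZFSet.{0}) :=
  IsElem.isZFModel (j := id) ⟨inferInstance, fun _ _ _ => Iff.rfl⟩

instance : ZFC (Set.univ : Set ZFSet.{0}) :=
  have := isZFModel_univ.zfm
  zfc_of isZFModel_univ (choice_of_enum fun x hx => g4 x hx)

instance (a : ZFSet.{0}) : InM (Set.univ : Set ZFSet.{0}) a := ⟨trivial⟩

/-- Every small type is coded in the universe. -/
@[reducible] noncomputable def codeU (X : Type) : Coded Set.univ X where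
  code x := Ordinal.toZFSet (Ordinal.typein WellOrderingRel x)
  inj := fun _ _ h => (Ordinal.typein _).injective (Ordinal.toZFSet_injective h)
  mem := trivial

theorem defF_univ {X Y : Type} [Coded Set.univ X] [Coded Set.univ Y] (f : X → Y) :
    DefF Set.univ f := by
  refine ⟨range fun x => pair (cd Set.univ x) (cd Set.univ (f x)), trivial, fun x y => ?_⟩
  simp [mem_range, pair_inj]

theorem ctble_univ {X : Type} [Coded Set.univ X] [Nonempty X] {p : X → Prop} :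
    Ctble Set.univ p ↔ {x | p x}.Countable := by
  rw [Set.countable_iff_exists_subset_range]
  exact ⟨fun ⟨g, _, h⟩ => ⟨g, h⟩, fun ⟨g, h⟩ => ⟨g, defF_univ g, h⟩⟩

theorem DefF.lift {M N : Set ZFSet.{0}} {X Y : Type} [Coded M X] [Coded M Y] [Coded N X]
    [Coded N Y] (h : M ⊆ N) (hX : ∀ x : X, cd N x = cd M x) (hY : ∀ y : Y, cd N y = cd M y)
    {f : X → Y} (hf : DefF M f) : DefF N f := by
  obtain ⟨a, ha, H⟩ := hf
  exact ⟨a, h ha, fun x y => by rw [hX, hY]; exact H x y⟩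

noncomputable instance {ν : ZFSet.{0}} [h : Fact ν.IsOrdinal] : LinearOrder (El ν) :=
  LinearOrder.lift' (fun x => x.val.rank) fun x y hxy =>
    El.val_inj (((h.out.mem x.val_mem).rank_inj (h.out.mem y.val_mem)).1 hxy)

theorem El.lt_iff {ν : ZFSet.{0}} [h : Fact ν.IsOrdinal] {a b : El ν} : a < b ↔ a.val ∈ b.val :=
  (h.out.mem a.val_mem).rank_lt_iff_mem (h.out.mem b.val_mem)

instance {ν : ZFSet.{0}} [Fact ν.IsOrdinal] : WellFoundedLT (El ν) :=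
  ⟨InvImage.wf (fun x : El ν => x.val.rank) wellFounded_lt⟩

variable {M : Set ZFSet.{0}} [ZFC M] {X A B : Type} [Coded M X] [Coded M A] [Coded M B]

theorem mem_cd_dset {S : DSet M X} {z : ZFSet.{0}} : z ∈ cd M S ↔ ∃ x, S.Mem x ∧ cd M x = z :=
  ⟨fun h => by
    obtain ⟨x, rfl⟩ := mem_car.1 (cd_dset_subset S h)
    exact ⟨x, cd_mem_dset.1 h, rfl⟩, fun ⟨_, h, h'⟩ => h' ▸ cd_mem_dset.2 h⟩

/-- A surjection in the model gives a definable function. -/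
theorem exists_fun_of_surj [Nonempty B] {a b : ZFSet.{0}} (ha : a ⊆ car M A) (h : Surj M a b) :
    ∃ e : A → B, DefF M e ∧ ∀ y, cd M y ∈ b → ∃ x, cd M x ∈ a ∧ e x = y := by
  obtain ⟨r, hr, h1, h2⟩ := h
  have h3 : DefF M (In M r : A × B → Prop) := DefF.isIn hr
  obtain ⟨e, he, H⟩ := choice (N := M) (R := fun (x : A) (y : B) =>
    (∃ y : B, In M r (x, y)) → In M r (x, y)) (by simp only [imp_eq]; fun_prop) (fun x => by
      by_cases h : ∃ y : B, In M r (x, y)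
      · exact h.imp fun _ h _ => h
      · exact ⟨Classical.arbitrary B, fun h' => (h h').elim⟩)
  refine ⟨e, he, fun y hy => ?_⟩
  obtain ⟨z, h4, h5⟩ := h2 _ hy
  obtain ⟨x, rfl⟩ := mem_car.1 (ha h4)
  exact ⟨x, h4, Coded.inj (h1 _ _ (H x ⟨y, h5⟩) _ h5)⟩

theorem exists_graph {e : A → B} (he : DefF M e) :
    ∃ r ∈ M, Fn r ∧ ∀ x, pair (cd M x) (cd M (e x)) ∈ r := by
  refine ⟨cd M (DFun.graph ⟨e, he⟩), cd_mem _, fun a y h1 y' h2 => ?_,
    fun x => (cd_mem_dset (S := DFun.graph ⟨e, he⟩) (x := (x, e x))).2 rfl⟩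
  obtain ⟨w, h3, h4⟩ := mem_cd_dset.1 h1
  obtain ⟨w', h5, h6⟩ := mem_cd_dset.1 h2
  rw [cd_prod', pair_inj] at h4 h6
  rw [← h4.2, ← h6.2, ← (h3 : e w.1 = w.2), ← (h5 : e w'.1 = w'.2),
    Coded.inj (h4.1.trans h6.1.symm)]

theorem surj_of_fun {e : A → B} (he : DefF M e) {b : ZFSet.{0}}
    (h : ∀ z ∈ b, ∃ x, cd M (e x) = z) : Surj M (car M A) b := by
  obtain ⟨r, h1, h2, h3⟩ := exists_graph he
  refine ⟨r, h1, h2, fun z hz => ?_⟩
  obtain ⟨x, rfl⟩ := h z hz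
  exact ⟨_, cd_mem_car x, h3 x⟩

theorem om_el {ν : ZFSet.{0}} [InM M ν] [hν : Fact ν.IsOrdinal] (h0 : ∅ ∈ ν)
    (hc : ∀ μ ∈ ν, Surj M omega μ)
    (hb : ∀ s : ℕ → El ν, DefF M s → ∃ b, ∀ n, s n < b) : Om M (El ν) := by
  obtain ⟨a, -⟩ := El.exists_val h0
  have : Nonempty (El ν) := ⟨a⟩
  refine ⟨inferInstance, this, (defF_cd_mem DefF.fst DefF.snd).congr_iff fun _ => El.lt_iff.symm,
    fun a => ?_, hb⟩
  obtain ⟨b, h⟩ := hb (fun _ => a) (DefF.const a)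
  obtain ⟨e, he, H⟩ := exists_fun_of_surj (M := M) (A := ℕ) (B := El ν) car_nat.ge (hc _ b.val_mem)
  exact ⟨e, he, fun x hx => (H x (El.lt_iff.1 (hx.trans_lt (h 0)))).imp fun _ h => h.2⟩

/-- `(P, le)` codes the preorder `L` on the elements that satisfy `V`. -/
structure TF (M : Set ZFSet.{0}) [ZFC M] (P le : ZFSet.{0}) {X : Type} [Coded M X] (V : X → Prop)
    (L : X → X → Prop) : Prop where
  memP : P ∈ M
  memL : le ∈ M
  forcing : IsForcing P le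
  hP : ∀ z, z ∈ P ↔ ∃ x, V x ∧ cd M x = z
  hL : ∀ q p, pair (cd M q) (cd M p) ∈ le ↔ V q ∧ V p ∧ L q p

variable {V : X → Prop} {L : X → X → Prop}

theorem exists_TF (hV : DefF M V) (hL : DefF M (fun z : X × X => L z.1 z.2))
    (refl : ∀ p, L p p) (trans : ∀ r q p, L r q → L q p → L r p) : ∃ P le, TF M P le V L := by
  let P : DSet M X := ⟨V, hV⟩
  let le : DSet M (X × X) := ⟨fun z => V z.1 ∧ V z.2 ∧ L z.1 z.2, by fun_prop⟩
  have h1 : ∀ a b, pair a b ∈ cd M le ↔ ∃ q p, (V q ∧ V p ∧ L q p) ∧ cd M q = a ∧ cd M p = b := by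
    intro a b
    simp only [mem_cd_dset, cd_prod', pair_inj, Prod.exists]
    rfl
  refine ⟨cd M P, cd M le, cd_mem _, cd_mem _, ⟨fun z hz => ?_, fun z hz => ?_, fun p q r h h' => ?_⟩,
    fun z => mem_cd_dset, fun q p => cd_mem_dset (S := le) (x := (q, p))⟩
  · obtain ⟨w, h, rfl⟩ := mem_cd_dset.1 hz
    exact pair_mem_prod.2 ⟨cd_mem_dset.2 h.1, cd_mem_dset.2 h.2.1⟩
  · obtain ⟨w, h, rfl⟩ := mem_cd_dset.1 hz
    exact (h1 _ _).2 ⟨w, w, ⟨h, h, refl w⟩, rfl, rfl⟩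
  · obtain ⟨a, b, h2, rfl, rfl⟩ := (h1 _ _).1 h
    obtain ⟨b', c, h3, h4, rfl⟩ := (h1 _ _).1 h'
    obtain rfl := Coded.inj h4
    exact (h1 _ _).2 ⟨a, c, ⟨h2.1, h3.2.1, trans _ _ _ h2.2.2 h3.2.2⟩, rfl, rfl⟩

variable {P le H : ZFSet.{0}}

theorem TF.refl (h : TF M P le V L) {p : X} (hp : V p) : L p p :=
  ((h.hL p p).1 (h.forcing.refl _ ((h.hP _).2 ⟨p, hp, rfl⟩))).2.2

theorem TF.trans (h : TF M P le V L) {r q p : X} (hr : V r) (hq : V q) (hp : V p) (h1 : L r q)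
    (h2 : L q p) : L r p :=
  ((h.hL r p).1 (h.forcing.trans _ _ _ ((h.hL _ _).2 ⟨hr, hq, h1⟩) ((h.hL _ _).2 ⟨hq, hp, h2⟩))).2.2

theorem TF.valid (h : TF M P le V L) (hH : IsGeneric M P le H) {p : X} (hp : In M H p) : V p := by
  obtain ⟨x, h1, h2⟩ := (h.hP _).1 (hH.subset hp)
  exact Coded.inj h2 ▸ h1

theorem TF.exists_cd (h : TF M P le V L) (hH : IsGeneric M P le H) {z : ZFSet.{0}} (hz : z ∈ H) :
    ∃ p : X, cd M p = z := ((h.hP _).1 (hH.subset hz)).imp fun _ h => h.2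

theorem TF.nonempty (h : TF M P le V L) (hH : IsGeneric M P le H) : ∃ p : X, In M H p := by
  obtain ⟨z, hz⟩ := hH.nonempty h.forcing h.memP
  obtain ⟨p, rfl⟩ := h.exists_cd hH hz
  exact ⟨p, hz⟩

theorem TF.directed (h : TF M P le V L) (hH : IsGeneric M P le H) {p q : X} (hp : In M H p)
    (hq : In M H q) : ∃ r, In M H r ∧ L r p ∧ L r q := by
  obtain ⟨z, hz, h1, h2⟩ := hH.directed _ hp _ hq
  obtain ⟨r, rfl⟩ := h.exists_cd hH hz
  exact ⟨r, hz, ((h.hL _ _).1 h1).2.2, ((h.hL _ _).1 h2).2.2⟩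

theorem TF.below (h : TF M P le V L) (hH : IsGeneric M P le H) {R : X → Prop} (hR : DefF M R)
    {p : X} (hp : In M H p) (hd : ∀ q, V q → L q p → ∃ q', V q' ∧ L q' q ∧ R q') :
    ∃ q, In M H q ∧ R q := by
  obtain ⟨a, ha, h1⟩ := hR.defP
  have := InM.mk ha
  obtain ⟨z, hz, h2⟩ := hH.below h.forcing h.memP h.memL (fun z => z ∈ a) hp (by
    intro z hz
    obtain ⟨q, h2, rfl⟩ := (h.hP _).1 (h.forcing.left hz)
    obtain ⟨q', h3, h4, h5⟩ := hd q h2 ((h.hL _ _).1 hz).2.2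
    exact ⟨_, (h.hL _ _).2 ⟨h3, h2, h4⟩, (h1 _).1 h5⟩)
  obtain ⟨q, rfl⟩ := h.exists_cd hH hz
  exact ⟨q, hz, (h1 _).2 h2⟩

theorem TF.meets (h : TF M P le V L) (hH : IsGeneric M P le H) {R : X → Prop} (hR : DefF M R)
    (hd : ∀ q, V q → ∃ q', V q' ∧ L q' q ∧ R q') : ∃ q, In M H q ∧ R q :=
  (h.nonempty hH).elim fun _ hp => h.below hH hR hp fun q hq _ => hd q hq

theorem TF.nice (h : TF M P le V L) (hH : IsGeneric M P le H) {Z : ZFSet.{0}}
    (hZ : Z ∈ genericExt M H) (A : Type) [Coded M A] :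
    ∃ S : A → X → Prop, DefF M (fun z : A × X => S z.1 z.2) ∧
      (∀ a p q, S a p → V q → L q p → S a q) ∧ ∀ a, cd M a ∈ Z ↔ ∃ p, In M H p ∧ S a p := by
  obtain ⟨S, hS, h1, h2, h3⟩ := exists_nice h.forcing h.memP h.memL hH hZ (car_mem (N := M) A)
  refine ⟨fun a p => In M S (a, p), DefF.isIn hS, fun a p q h4 h5 h6 => h2 _ _ _ h4 ?_, fun a => ?_⟩
  · obtain ⟨x, h7, h8⟩ := (h.hP _).1 (pair_mem_prod.1 (h1 h4)).2
    exact (h.hL _ _).2 ⟨h5, Coded.inj h8 ▸ h7, h6⟩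
  · rw [h3 _ (cd_mem_car a)]
    refine ⟨fun ⟨z, hz, h4⟩ => ?_, fun ⟨p, hp, h4⟩ => ⟨_, hp, h4⟩⟩
    obtain ⟨p, rfl⟩ := h.exists_cd hH hz
    exact ⟨p, hz, h4⟩

theorem TF.def_V (h : TF M P le V L) : DefF M V :=
  (defF_mem h.memP).congr_iff fun x => by simp [h.hP]

theorem TF.def_L (h : TF M P le V L) : DefF M (fun z : X × X => V z.1 ∧ V z.2 ∧ L z.1 z.2) :=
  (defF_mem h.memL).congr_iff fun z => h.hL z.1 z.2

/-- A name for a total relation of the extension that is total below every condition. -/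
theorem TF.nice_total [Nonempty B] (h : TF M P le V L) (hH : IsGeneric M P le H)
    (hL : DefF M (fun z : X × X => L z.1 z.2)) {Z : ZFSet.{0}} (hZ : Z ∈ genericExt M H)
    (ht : ∀ a : A, ∃ b : B, cd M (a, b) ∈ Z) :
    ∃ W : A → B → X → Prop, DefF M (fun z : A × B × X => W z.1 z.2.1 z.2.2) ∧
      (∀ a b p q, W a b p → V p → V q → L q p → W a b q) ∧
      (∀ a p, V p → ∃ q, V q ∧ L q p ∧ ∃ b, W a b q) ∧
      ∀ a b p, In M H p → W a b p → cd M (a, b) ∈ Z := by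
  obtain ⟨S, hS, h1, h2⟩ := h.nice hH hZ (A × B)
  have hV := h.def_V
  refine ⟨fun a b q => S (a, b) q ∨ ∀ s b', V s → L s q → ¬ S (a, b') s,
    by simp only [all_eq, imp_eq]; fun_prop, fun a b p q h3 hp hq h4 => h3.imp
      (fun h => h1 _ _ _ h hq h4) fun h3 s b' h5 h6 => h3 s b' h5 (h.trans h5 hq hp h6 h4),
    fun a p hp => ?_, fun a b p hp h3 => ?_⟩
  · by_cases h3 : ∀ s b', V s → L s p → ¬ S (a, b') s
    · exact ⟨p, hp, h.refl hp, Classical.arbitrary B, Or.inr h3⟩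
    · push Not at h3
      obtain ⟨s, b, h4, h5, h6⟩ := h3
      exact ⟨s, h4, h5, b, Or.inl h6⟩
  · rcases h3 with h3 | h3
    · exact (h2 _).2 ⟨p, hp, h3⟩
    · obtain ⟨b', h4⟩ := ht a
      obtain ⟨q, h5, h6⟩ := (h2 _).1 h4
      obtain ⟨s, h7, h8, h9⟩ := h.directed hH hp h5
      exact (h3 s b' (h.valid hH h7) h8 (h1 _ _ _ h6 (h.valid hH h7) h9)).elim

/-- The value of a name. -/
theorem TF.eval (h : TF M P le V L) (hH : IsGeneric M P le H) {R : A → X → Prop}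
    (hR : DefF M (fun z : A × X => R z.1 z.2)) :
    ∃ Z ∈ genericExt M H, Z ⊆ car M A ∧ ∀ a, cd M a ∈ Z ↔ ∃ p, In M H p ∧ R a p := by
  have := genericExt_zfm ZFC.pow h.forcing h.memP h.memL hH
  have hMN := subset_genericExt h.forcing h.memP hH
  obtain ⟨c, hc, h1⟩ := hR.defP
  have := InM.mk (hMN hc)
  have := InM.mk (generic_mem h.forcing h.memP hH)
  refine ⟨_, sep_mem (fun z => ∃ p ∈ H, pair z p ∈ c) (hMN (car_mem A)), sep_subset, fun a => ?_⟩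
  rw [mem_sep]
  refine ⟨fun ⟨_, z, hz, h2⟩ => ?_, fun ⟨p, hp, h2⟩ => ⟨cd_mem_car a, _, hp, (h1 (a, p)).1 h2⟩⟩
  obtain ⟨p, rfl⟩ := h.exists_cd hH hz
  exact ⟨p, hz, (h1 (a, p)).2 h2⟩

/-- A countably distributive forcing adds no subset of `ω`. -/
theorem TF.no_reals (h : TF M P le V L) (hH : IsGeneric M P le H)
    (hL : DefF M (fun z : X × X => L z.1 z.2))
    (hd : ∀ p, V p → ∀ D : ℕ → X → Prop, DefF M (fun z : ℕ × X => D z.1 z.2) →
      (∀ n q, V q → ∃ q', V q' ∧ L q' q ∧ D n q') → (∀ n q q', V q' → L q' q → D n q → D n q') →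
      ∃ q, V q ∧ L q p ∧ ∀ n, D n q)
    {x : ZFSet.{0}} (hx : x ∈ genericExt M H) (hω : x ⊆ omega) : x ∈ M := by
  obtain ⟨S, hS, h1, h2⟩ := h.nice hH hx ℕ
  have hV := h.def_V
  obtain ⟨q, hq, h3⟩ := h.meets hH
    (R := fun q => ∀ n, V q ∧ (S n q ∨ ∀ s, V s → L s q → ¬ S n s))
    (by simp only [all_eq, imp_eq]; fun_prop) fun p hp => hd p hp _
      (by simp only [all_eq, imp_eq]; fun_prop) (fun n q hq => by
        by_cases h3 : ∀ s, V s → L s q → ¬ S n s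
        · exact ⟨q, hq, h.refl hq, hq, Or.inr h3⟩
        · push Not at h3
          obtain ⟨s, h4, h5, h6⟩ := h3
          exact ⟨s, h4, h5, h4, Or.inl h6⟩)
      fun n q q' h3 h4 h5 => ⟨h3, h5.2.imp (fun h => h1 _ _ _ h h3 h4)
        fun h6 s h7 h8 => h6 s h7 (h.trans h7 h3 h5.1 h8 h4)⟩
  convert cd_mem (N := M) (⟨fun n => S n q, by fun_prop⟩ : DSet M ℕ)
  ext z
  rw [mem_cd_dset]
  constructor
  · intro hz
    obtain ⟨n, rfl⟩ := mem_car.1 ((car_nat (N := M)).ge (hω hz))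
    obtain ⟨p, hp, h4⟩ := (h2 n).1 hz
    obtain ⟨s, h5, h6, h7⟩ := h.directed hH hp hq
    exact ⟨n, (h3 n).2.resolve_right fun h8 =>
      h8 s (h.valid hH h5) h7 (h1 _ _ _ h4 (h.valid hH h5) h6), rfl⟩
  · rintro ⟨n, hn, rfl⟩
    exact (h2 n).2 ⟨q, hq, hn⟩

end Pool.Agent.Lib.Typed
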