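import Pool.Agent.Lib.Typed.Types

/-!
Countability, the first uncountable ordinal, stationary sets and the pressing down lemma, inside
a model `N`, in the typed layer.
-/

set_option synthInstance.maxSize 16384

namespace Pool.Agent.Lib.Typed

variable {N : Set ZFSet.{0}} [ZFC N]
variable {X Y Z W : Type} [Coded N X] [Coded N Y] [Coded N Z] [Coded N W]

/-- Countable in `N`. -/
def Ctble (N : Set ZFSet.{0}) [ZFC N] {X : Type} [Coded N X] (p : X → Prop) : Prop :=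
  ∃ g : ℕ → X, DefF N g ∧ ∀ x, p x → ∃ n, g n = x

theorem Ctble.mono {p q : X → Prop} (h : Ctble N q) (hpq : ∀ x, p x → q x) : Ctble N p :=
  h.imp fun _ h => ⟨h.1, fun x hx => h.2 x (hpq x hx)⟩

theorem ctble_nat : Ctble N (fun _ : ℕ => True) := ⟨fun n => n, DefF.id, fun n _ => ⟨n, rfl⟩⟩

theorem ctble_single (x : X) : Ctble N (fun y => y = x) :=
  ⟨fun _ => x, DefF.const x, fun _ h => ⟨0, h.symm⟩⟩

theorem Ctble.image {p : X → Prop} (h : Ctble N p) {f : X → Y} (hf : DefF N f) :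
    Ctble N (fun y => ∃ x, p x ∧ f x = y) := by
  obtain ⟨g, hg, h⟩ := h
  refine ⟨fun n => f (g n), by fun_prop, ?_⟩
  rintro _ ⟨x, hx, rfl⟩
  obtain ⟨n, rfl⟩ := h x hx
  exact ⟨n, rfl⟩

/-- Enumerations of a definable family of countable sets can be chosen definably. -/
theorem exists_enum {R : W → X → Prop} (hR : DefF N (fun z : W × X => R z.1 z.2))
    (h : ∀ w, Ctble N (R w)) :
    ∃ g : W → ℕ → X, DefF N (fun z : W × ℕ => g z.1 z.2) ∧ ∀ w x, R w x → ∃ n, g w n = x := by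
  obtain ⟨f, hf, H⟩ := choice (N := N)
    (R := fun (w : W) (g : DFun N ℕ X) => ∀ x, R w x → ∃ n, g.app n = x)
    (by simp only [all_eq, imp_eq]; fun_prop)
    (fun w => by obtain ⟨g, hg, h⟩ := h w; exact ⟨⟨g, hg⟩, h⟩)
  exact ⟨fun w n => (f w).app n, by fun_prop, H⟩

theorem Ctble.biUnion {p : Y → Prop} (hp : Ctble N p) {R : Y → X → Prop}
    (hR : DefF N (fun z : Y × X => R z.1 z.2)) (h : ∀ y, Ctble N (R y)) :
    Ctble N (fun x => ∃ y, p y ∧ R y x) := by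
  obtain ⟨g, hg, h⟩ := exists_enum hR h
  obtain ⟨k, hk, hp⟩ := hp
  refine ⟨fun n => g (k n.unpair.1) n.unpair.2, by fun_prop, ?_⟩
  rintro x ⟨y, hy, hx⟩
  obtain ⟨a, rfl⟩ := hp y hy
  obtain ⟨b, rfl⟩ := h _ x hx
  exact ⟨Nat.pair a b, by simp⟩

theorem Ctble.prod {p : X → Prop} {q : Y → Prop} (hp : Ctble N p) (hq : Ctble N q) :
    Ctble N (fun z : X × Y => p z.1 ∧ q z.2) := by
  obtain ⟨g, hg, hp⟩ := hp
  obtain ⟨k, hk, hq⟩ := hq
  refine ⟨fun n => (g n.unpair.1, k n.unpair.2), by fun_prop, ?_⟩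
  rintro ⟨x, y⟩ ⟨hx, hy⟩
  obtain ⟨a, rfl⟩ := hp x hx
  obtain ⟨b, rfl⟩ := hq y hy
  exact ⟨Nat.pair a b, by simp⟩

theorem Ctble.list {p : X → Prop} (hp : Ctble N p) :
    Ctble N (fun l : List X => ∀ x ∈ l, p x) := by
  obtain ⟨g, hg, hp⟩ := hp
  have h1 : ∀ n : ℕ, Ctble N (fun l : List X => l.length = n ∧ ∀ x ∈ l, ∃ k, g k = x) := by
    intro n
    induction n with
    | zero => exact (ctble_single []).mono fun l h => List.length_eq_zero_iff.1 h.1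
    | succ n ih =>
      refine ((ctble_nat.prod ih).image (f := fun z => g z.1 :: z.2) (by fun_prop)).mono ?_
      rintro (_ | ⟨x, l⟩) ⟨h1, h2⟩
      · simp at h1
      · obtain ⟨k, rfl⟩ := h2 x List.mem_cons_self
        exact ⟨(k, l), ⟨trivial, by simpa using h1, fun y hy => h2 y (List.mem_cons_of_mem _ hy)⟩,
          rfl⟩
  refine (ctble_nat.biUnion (by simp only [all_eq, imp_eq]; fun_prop) h1).mono fun l hl => ?_
  exact ⟨_, trivial, rfl, fun x hx => hp x (hl x hx)⟩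

theorem Ctble.exists_inj {p : X → Prop} (hp : Ctble N p) :
    ∃ j : X → ℕ, DefF N j ∧ ∀ x y, p x → p y → j x = j y → x = y := by
  obtain ⟨g, hg, hp⟩ := hp
  obtain ⟨j, hj, H⟩ := choice (N := N) (R := fun (x : X) (n : ℕ) => (∃ k, g k = x) → g n = x)
    (by simp only [imp_eq]; fun_prop) (fun x => by
      by_cases h : ∃ k, g k = x
      · exact h.imp fun _ h _ => h
      · exact ⟨0, fun h' => (h h').elim⟩)
  exact ⟨j, hj, fun x y hx hy h => by rw [← H x (hp x hx), h, H y (hp y hy)]⟩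

/-- An enumeration in which every element occurs infinitely often. -/
theorem Ctble.exists_often {p : X → Prop} (hp : Ctble N p) :
    ∃ g : ℕ → X, DefF N g ∧ ∀ x, p x → ∀ m, ∃ n, m ≤ n ∧ g n = x := by
  obtain ⟨g, hg, hp⟩ := hp
  refine ⟨fun n => g n.unpair.1, by fun_prop, fun x hx m => ?_⟩
  obtain ⟨a, rfl⟩ := hp x hx
  exact ⟨Nat.pair a m, Nat.right_le_pair _ _, by simp⟩

/-- `Ω` is the first uncountable ordinal of `N`. -/
class Om (N : Set ZFSet.{0}) [ZFC N] (Ω : Type) [Coded N Ω] [LinearOrder Ω] : Prop where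
  wf : WellFoundedLT Ω
  ne : Nonempty Ω
  def_lt : DefF N (fun z : Ω × Ω => z.1 < z.2)
  ctble : ∀ a : Ω, Ctble N (fun b => b ≤ a)
  bdd : ∀ s : ℕ → Ω, DefF N s → ∃ b, ∀ n, s n < b

variable {Ω : Type} [Coded N Ω] [LinearOrder Ω] [hΩ : Om N Ω]

@[fun_prop] theorem DefF.lt {f g : W → Ω} (hf : DefF N f) (hg : DefF N g) :
    DefF N (fun w => f w < g w) := hΩ.def_lt.comp (hf.prodMk hg)

@[fun_prop] theorem DefF.le {f g : W → Ω} (hf : DefF N f) (hg : DefF N g) :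
    DefF N (fun w => f w ≤ g w) := (hg.lt hf).not.congr_iff fun _ => not_lt

@[fun_prop] theorem DefF.max {f g : W → Ω} (hf : DefF N f) (hg : DefF N g) :
    DefF N (fun w => max (f w) (g w)) := by
  simp only [max_def]
  fun_prop

theorem Ctble.bdd {p : X → Prop} (hp : Ctble N p) {f : X → Ω} (hf : DefF N f) :
    ∃ b, ∀ x, p x → f x < b := by
  obtain ⟨g, hg, hp⟩ := hp
  obtain ⟨b, hb⟩ := hΩ.bdd (fun n => f (g n)) (by fun_prop)
  refine ⟨b, fun x hx => ?_⟩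
  obtain ⟨n, rfl⟩ := hp x hx
  exact hb n

include hΩ in
theorem exists_gt (a : Ω) : ∃ b, a < b :=
  (hΩ.bdd (fun _ => a) (DefF.const a)).imp fun _ h => h 0

theorem ctble_lt (a : Ω) : Ctble N (fun b => b < a) := (hΩ.ctble a).mono fun _ h => h.le

/-- A definable function that bounds a definable family of countable sets of ordinals. -/
theorem exists_bound {p : W → X → Prop} (hp : DefF N (fun z : W × X => p z.1 z.2))
    (hc : ∀ w, Ctble N (p w)) {f : W → X → Ω} (hf : DefF N (fun z : W × X => f z.1 z.2)) :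
    ∃ G : W → Ω, DefF N G ∧ ∀ w x, p w x → f w x < G w :=
  choice (R := fun w b => ∀ x, p w x → f w x < b) (by simp only [all_eq, imp_eq]; fun_prop)
    fun w => (hc w).bdd (hf.comp (f := fun x => (w, x)) (by fun_prop))

include hΩ in
/-- The supremum of a bounded sequence. -/
theorem exists_sup {s : ℕ → Ω} (hs : DefF N s) :
    ∃ δ, (∀ n, s n < δ) ∧ ∀ γ, γ < δ → ∃ n, γ ≤ s n := by
  have := hΩ.wf
  obtain ⟨δ, h1, h2⟩ := (wellFounded_lt (α := Ω)).has_min {b | ∀ n, s n < b} (hΩ.bdd s hs)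
  refine ⟨δ, h1, fun γ hγ => ?_⟩
  by_contra h
  push Not at h
  exact h2 γ h hγ

/-- There is no definable way of increasing a monotone function from `Ω` to `ℕ`. -/
theorem not_always_lt {R : Ω → Ω → Prop} (hR : DefF N (fun z : Ω × Ω => R z.1 z.2)) (a : Ω)
    (h : ∀ b, a ≤ b → ∃ b', b ≤ b' ∧ R b b') (c : Ω → ℕ)
    (hc : ∀ b b', a ≤ b → b ≤ b' → c b ≤ c b')
    (hc' : ∀ b b', a ≤ b → b ≤ b' → R b b' → c b < c b') : False := by
  obtain ⟨s, hs, -, h1, h2⟩ := dc (N := N) (I := fun _ b => a ≤ b)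
    (R := fun _ b b' => b ≤ b' ∧ R b b') (by fun_prop) (by fun_prop)
    (fun _ b hb => (h b hb).imp fun _ h => ⟨hb.trans h.1, h⟩) (le_refl a)
  obtain ⟨b, hb⟩ := hΩ.bdd s hs
  have h3 : ∀ n, n ≤ c (s n) := by
    intro n
    induction n with
    | zero => exact Nat.zero_le _
    | succ n ih => exact ih.trans_lt (hc' _ _ (h1 n) (h2 n).1 (h2 n).2)
  have := (h3 (c b + 1)).trans (hc _ _ (h1 _) (hb _).le)
  omega

/-- Stationary in `N`: meets the closure points of every definable function. -/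
def Stat (N : Set ZFSet.{0}) [ZFC N] {Ω : Type} [Coded N Ω] [LinearOrder Ω] (S : Ω → Prop) : Prop :=
  ∀ G : DFun N Ω Ω, ∃ δ, S δ ∧ (∃ a, a < δ) ∧ ∀ γ, γ < δ → G.app γ < δ

@[fun_prop] theorem DefF.stat {S : W → Ω → Prop} (hS : DefF N (fun z : W × Ω => S z.1 z.2)) :
    DefF N (fun w => Stat N (S w)) := by
  unfold Stat
  simp only [all_eq, imp_eq]
  fun_prop

omit hΩ in
theorem Stat.mono {S S' : Ω → Prop} (h : Stat N S) (hS : ∀ δ, S δ → S' δ) : Stat N S' :=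
  fun G => (h G).imp fun δ h => ⟨hS δ h.1, h.2⟩

theorem Stat.inter {S : Ω → Prop} (h : Stat N S) {G : Ω → Ω} (hG : DefF N G) (β : Ω) :
    Stat N (fun δ => S δ ∧ β < δ ∧ ∀ γ, γ < δ → G γ < δ) := by
  intro F
  have := F.def_app
  obtain ⟨δ, h1, ⟨a, ha⟩, h2⟩ := h ⟨fun γ => max β (max (G γ) (F.app γ)), by fun_prop⟩
  simp only [max_lt_iff] at h2
  exact ⟨δ, ⟨h1, (h2 a ha).1, fun γ hγ => (h2 γ hγ).2.1⟩, ⟨a, ha⟩, fun γ hγ => (h2 γ hγ).2.2⟩

omit hΩ in
theorem Stat.exists {S : Ω → Prop} (h : Stat N S) : ∃ δ, S δ :=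
  (h ⟨fun γ => γ, DefF.id⟩).imp fun _ h => h.1

theorem stat_true : Stat N (fun _ : Ω => True) := by
  intro G
  have hG := G.def_app
  obtain ⟨F, hF, H⟩ := exists_bound (N := N) (p := fun a b : Ω => b ≤ a) (by fun_prop) hΩ.ctble
    (f := fun a b => max a (G.app b)) (by fun_prop)
  obtain ⟨a⟩ := hΩ.ne
  obtain ⟨s, hs, -, -, h⟩ := dc (N := N) (I := fun _ (_ : Ω) => True)
    (R := fun _ b b' => b' = F b) (by fun_prop) (by fun_prop)
    (fun _ b _ => ⟨_, trivial, rfl⟩) (x0 := a) trivial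
  obtain ⟨δ, h1, h2⟩ := exists_sup hs
  refine ⟨δ, trivial, ⟨_, h1 0⟩, fun γ hγ => ?_⟩
  obtain ⟨n, hn⟩ := h2 γ hγ
  exact ((le_max_right _ _).trans_lt (H _ _ hn)).trans (h n ▸ h1 (n + 1))

/-- The pressing down lemma, relational form. -/
theorem fodor_rel {R : Y → Ω → Prop} (hR : DefF N (fun z : Y × Ω => R z.1 z.2))
    {P : Ω → Y → Prop} (hP : DefF N (fun z : Ω × Y => P z.1 z.2)) (hc : ∀ γ, Ctble N (P γ))
    (h : Stat N (fun δ => ∃ γ, γ < δ ∧ ∃ y, P γ y ∧ R y δ)) : ∃ y, Stat N (R y) := by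
  by_contra hcon
  simp only [Stat, not_exists, not_forall] at hcon
  obtain ⟨G, hG, H⟩ := choice (N := N) (R := fun (y : Y) (G : DFun N Ω Ω) =>
    ¬ ∃ δ, R y δ ∧ (∃ a, a < δ) ∧ ∀ γ, γ < δ → G.app γ < δ)
    (by simp only [all_eq, imp_eq]; fun_prop) (fun y => (hcon y).imp fun _ h => not_exists.2 h)
  obtain ⟨F, hF, H'⟩ := exists_bound (N := N)
    (p := fun (a : Ω) (z : Y × Ω) => (∃ b, b ≤ a ∧ P b z.1) ∧ z.2 ≤ a) (by fun_prop)
    (fun a => ((hΩ.ctble a).biUnion hP hc).prod (hΩ.ctble a))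
    (f := fun _ z => (G z.1).app z.2) (by fun_prop)
  obtain ⟨δ, ⟨b, hb, y, h1, h1'⟩, h2, h3⟩ := h ⟨F, hF⟩
  refine H y ⟨δ, h1', h2, fun γ hγ => ?_⟩
  exact (H' (max γ b) (y, γ) ⟨⟨b, le_max_right _ _, h1⟩, le_max_left _ _⟩).trans
    (h3 _ (max_lt hγ hb))

/-- The pressing down lemma. -/
theorem fodor {S : Ω → Prop} (hS : DefF N S) (h : Stat N S) {rk : Y → Ω} (hrk : DefF N rk)
    (hc : ∀ γ, Ctble N (fun y => rk y ≤ γ)) {φ : Ω → Y} (hφ : DefF N φ)
    (hlt : ∀ δ, S δ → rk (φ δ) < δ) : ∃ y, Stat N (fun δ => S δ ∧ φ δ = y) :=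
  fodor_rel (R := fun y δ => S δ ∧ φ δ = y) (by fun_prop) (P := fun γ y => rk y ≤ γ)
    (by fun_prop) hc (h.mono fun δ hδ => ⟨_, hlt δ hδ, _, le_rfl, hδ, rfl⟩)

end Pool.Agent.Lib.Typed
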